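import Pool.Agent.Helper65.NX.Goals

/-!
# Networks of processors: the acceptance function is computed in linear space
-/

namespace Pool.Agent.Helper65.NX.K49

open Pool.Agent.Helper65.LinSpace Pool.Agent.Helper78.Mpc Pool.Agent.Helper28.Ram Finset
open Pool.Agent.Helper65.NX Pool.Agent.Helper65
open Pool.Agent.Helper31.SusD (itr)

theorem lt01_le (a b : ℕ) : lt01 a b ≤ 1 := by
  unfold lt01
  split_ifs <;> omega

theorem eq01_le (a b : ℕ) : eq01 a b ≤ 1 := by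
  unfold eq01
  split_ifs <;> omega

theorem mul_le_one {a b : ℕ} (ha : a ≤ 1) (hb : b ≤ 1) : a * b ≤ 1 :=
  (Nat.mul_le_mul ha hb).trans (by norm_num)

theorem accN_le (v : ℕ) : accN v ≤ 1 := by
  unfold accN
  exact mul_le_one (lt01_le _ _) (by omega)

theorem bad_le (P : Prm) (p c τ d z : ℕ) : P.bad p c τ d z ≤ 1 := by
  unfold Prm.bad
  exact Nat.sub_le _ _

theorem chk_le (P : Prm) (p c τ d : ℕ) : P.chk p c τ d ≤ 1 := by
  unfold Prm.chk
  exact mul_le_one (lt01_le _ _) (mul_le_one (lt01_le _ _) (mul_le_one (lt01_le _ _)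
    (mul_le_one (eq01_le _ _) (eq01_le _ _))))

theorem ac_le (P : Prm) (p r c τ : ℕ) : P.ac p r c τ ≤ 1 := by
  unfold Prm.ac
  exact mul_le_one (lt01_le _ _) (mul_le_one (eq01_le _ _) (accN_le _))

section

variable {α : Type} [Ctx α] {c₀ : ℕ} {e x y T : α → ℕ}

theorem ls_sim (hW : LSW_stmt) (hV : LSV_stmt) (he : LS e) (hx : LS x) (hy : LS y) (hT : LS T)
    {p c τ z : α → ℕ} (hp : LS p) (hc : LS c) (hτ : LS τ) (hz : LS z) :
    LS (fun a => ((prm c₀ (e a) (x a) (y a) (T a)).win (p a) (c a)).sim (τ a) (z a)) := by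
  have hm := hW c₀ he hx hy hT hp hc
  exact hV (m := fun a => (prm c₀ (e a) (x a) (y a) (T a)).win (p a) (c a)) hx hτ hz hm.1 hm.2

theorem ls_bad (h : LSP_stmt) (hW : LSW_stmt) (hV : LSV_stmt) (he : LS e) (hx : LS x) (hy : LS y)
    (hT : LS T) {p c τ d z : α → ℕ} (hp : LS p) (hc : LS c) (hτ : LS τ) (hd : LS d) (hz : LS z) :
    LS (fun a => (prm c₀ (e a) (x a) (y a) (T a)).bad (p a) (c a) (τ a) (d a) (z a)) := by
  obtain ⟨-, -, -, -, h5, -⟩ := h c₀ he hx hy hT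
  have h6 := ls_sim (c₀ := c₀) hW hV he hx hy hT hp hc hτ hz
  unfold Prm.bad
  exact LS.sub (LS.const 1) (LS.mul (LS.lt01 (LS.const 0) h6) (LS.eq01 h6 (h5 hp hd hz).1))

theorem ls_chk (h : LSP_stmt) (hW : LSW_stmt) (hV : LSV_stmt) (he : LS e) (hx : LS x) (hy : LS y)
    (hT : LS T) {p c τ d : α → ℕ} (hp : LS p) (hc : LS c) (hτ : LS τ) (hd : LS d) :
    LS (fun a => (prm c₀ (e a) (x a) (y a) (T a)).chk (p a) (c a) (τ a) (d a)) := by
  obtain ⟨-, -, -, h4, -⟩ := h c₀ he hx hy hT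
  have hs : LS (fun a => ∑ i ∈ range (2 ^ Nat.log 2 (p a)),
      (prm c₀ (e a) (x a) (y a) (T a)).bad (p a) (c a) (τ a) (d a) (2 ^ Nat.log 2 (p a) + i)) := by
    refine LS.sum_le (B := fun _ => 1) (N := fun a => 2 ^ Nat.log 2 (p a))
      (f := fun a i => (prm c₀ (e a) (x a) (y a) (T a)).bad (p a) (c a) (τ a) (d a)
        (2 ^ Nat.log 2 (p a) + i))
      ?_ (LS.pow_log hp) (LS.const 1) fun z i _ => bad_le _ _ _ _ _ _
    exact ls_bad (α := α × ℕ) h hW hV (e := fun z => e z.1) (x := fun z => x z.1)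
      (y := fun z => y z.1) (T := fun z => T z.1) (p := fun z => p z.1) (c := fun z => c z.1)
      (τ := fun z => τ z.1) (d := fun z => d z.1) (z := fun z => 2 ^ Nat.log 2 (p z.1) + z.2)
      (by fun_prop) (by fun_prop) (by fun_prop) (by fun_prop) (by fun_prop) (by fun_prop)
      (by fun_prop) (by fun_prop)
      (LS.add (LS.pow_log (f := fun z : α × ℕ => p z.1) (by fun_prop)) (by fun_prop))
  unfold Prm.chk
  exact LS.mul (LS.lt01 (LS.const 0) hc) (LS.mul (LS.lt01 (LS.const 0) hd)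
    (LS.mul (LS.lt01 (LS.const 0) hτ) (LS.mul (LS.eq01 (h4 hd).1 (LS.add (h4 hc).1 hτ))
      (LS.eq01 hs (LS.const 0)))))

theorem ls_accN {v : α → ℕ} (hv : LS v) : LS (fun z => accN (v z)) := by
  unfold accN
  exact LS.mul (LS.lt01 (LS.const 1) hv) (LS.mod hv (LS.const 2))

theorem ls_ac (h : LSP_stmt) (hW : LSW_stmt) (hV : LSV_stmt) (he : LS e) (hx : LS x) (hy : LS y)
    (hT : LS T) {p r c τ : α → ℕ} (hp : LS p) (hr : LS r) (hc : LS c) (hτ : LS τ) :
    LS (fun a => (prm c₀ (e a) (x a) (y a) (T a)).ac (p a) (r a) (c a) (τ a)) := by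
  obtain ⟨-, -, -, h4, -⟩ := h c₀ he hx hy hT
  unfold Prm.ac
  exact LS.mul (LS.lt01 (LS.const 0) hc) (LS.mul (LS.eq01 (LS.add (h4 hc).1 hτ) hr)
    (ls_accN (ls_sim hW hV he hx hy hT hp hc hτ hp)))

theorem ls_N (h : LSP_stmt) (he : LS e) (hx : LS x) (hy : LS y) (hT : LS T) :
    LS (fun a => (prm c₀ (e a) (x a) (y a) (T a)).N) := by
  obtain ⟨-, -, -, -, -, -, -, -, h9, h10, -⟩ := h c₀ he hx hy hT
  exact LS.mul h10 h9

theorem ls_itr (h : LSP_stmt) (hW : LSW_stmt) (hV : LSV_stmt) (he : LS e) (hx : LS x) (hy : LS y)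
    (hT : LS T) {p j : α → ℕ} (hp : LS p) (hj : LS j) :
    LS (fun a => itr ((prm c₀ (e a) (x a) (y a) (T a)).chk (p a))
      (prm c₀ (e a) (x a) (y a) (T a)).N (prm c₀ (e a) (x a) (y a) (T a)).cz (j a)) := by
  have hN := ls_N (c₀ := c₀) h he hx hy hT
  obtain ⟨-, -, -, -, -, -, -, -, -, -, -, -, h13⟩ := h c₀ he hx hy hT
  refine Pool.Agent.Helper31.SusD.LS.itr
    (chk := fun a => (prm c₀ (e a) (x a) (y a) (T a)).chk (p a)) hN h13 hj ?_
    fun z c τ d => chk_le _ _ _ _ _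
  exact ls_chk (α := α × ℕ × ℕ × ℕ) h hW hV (e := fun z => e z.1) (x := fun z => x z.1)
    (y := fun z => y z.1) (T := fun z => T z.1) (p := fun z => p z.1) (c := fun z => z.2.1)
    (τ := fun z => z.2.2.1) (d := fun z => z.2.2.2)
    (by fun_prop) (by fun_prop) (by fun_prop) (by fun_prop) (by fun_prop) (by fun_prop)
    (by fun_prop) (by fun_prop)

theorem acc_le (P : Prm) (p r : ℕ) : P.acc p r ≤ P.cz * P.N := by
  unfold Prm.acc
  refine (sum_le_sum (g := fun _ => P.N) fun j _ => ?_).trans (by simp)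
  refine (sum_le_sum (g := fun _ => 1) fun τ _ => ac_le _ _ _ _ _).trans (by simp)

theorem ls_acc (h : LSP_stmt) (hW : LSW_stmt) (hV : LSV_stmt) (he : LS e) (hx : LS x) (hy : LS y)
    (hT : LS T) {p r : α → ℕ} (hp : LS p) (hr : LS r) :
    LS (fun a => (prm c₀ (e a) (x a) (y a) (T a)).acc (p a) (r a)) := by
  have hN := ls_N (c₀ := c₀) h he hx hy hT
  obtain ⟨-, -, -, -, -, -, -, -, -, -, -, -, h13⟩ := h c₀ he hx hy hT
  unfold Prm.acc
  refine LS.sum_le (N := fun a => (prm c₀ (e a) (x a) (y a) (T a)).cz)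
    (B := fun a => (prm c₀ (e a) (x a) (y a) (T a)).N)
    (f := fun a j => ∑ τ ∈ range (prm c₀ (e a) (x a) (y a) (T a)).N,
      (prm c₀ (e a) (x a) (y a) (T a)).ac (p a) (r a)
        (itr ((prm c₀ (e a) (x a) (y a) (T a)).chk (p a))
          (prm c₀ (e a) (x a) (y a) (T a)).N (prm c₀ (e a) (x a) (y a) (T a)).cz j) τ)
    ?_ h13 hN fun z j _ => (sum_le_sum (g := fun _ => 1) fun τ _ => ac_le _ _ _ _ _).trans (by simp)
  have hN' := ls_N (α := α × ℕ) (c₀ := c₀) h (e := fun z => e z.1) (x := fun z => x z.1)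
    (y := fun z => y z.1) (T := fun z => T z.1) (by fun_prop) (by fun_prop) (by fun_prop)
    (by fun_prop)
  refine LS.sum_le (α := α × ℕ)
    (N := fun z => (prm c₀ (e z.1) (x z.1) (y z.1) (T z.1)).N) (B := fun _ => 1)
    (f := fun z τ => (prm c₀ (e z.1) (x z.1) (y z.1) (T z.1)).ac (p z.1) (r z.1)
        (itr ((prm c₀ (e z.1) (x z.1) (y z.1) (T z.1)).chk (p z.1))
          (prm c₀ (e z.1) (x z.1) (y z.1) (T z.1)).N
          (prm c₀ (e z.1) (x z.1) (y z.1) (T z.1)).cz z.2) τ)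
    ?_ hN' (LS.const 1) fun z τ _ => ac_le _ _ _ _ _
  refine ls_ac (α := (α × ℕ) × ℕ) h hW hV (e := fun z => e z.1.1) (x := fun z => x z.1.1)
    (y := fun z => y z.1.1) (T := fun z => T z.1.1) (p := fun z => p z.1.1)
    (r := fun z => r z.1.1) (τ := fun z => z.2)
    (by fun_prop) (by fun_prop) (by fun_prop) (by fun_prop) (by fun_prop) (by fun_prop) ?_
    (by fun_prop)
  exact ls_itr (α := (α × ℕ) × ℕ) h hW hV (e := fun z => e z.1.1) (x := fun z => x z.1.1)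
    (y := fun z => y z.1.1) (T := fun z => T z.1.1) (p := fun z => p z.1.1)
    (j := fun z => z.1.2)
    (by fun_prop) (by fun_prop) (by fun_prop) (by fun_prop) (by fun_prop) (by fun_prop)

theorem ls_accF (h : LSP_stmt) (hW : LSW_stmt) (hV : LSV_stmt) (he : LS e) (hx : LS x) (hy : LS y)
    (hT : LS T) : LS (fun a => accF c₀ (e a) (x a) (y a) (T a)) := by
  have hN := ls_N (c₀ := c₀) h he hx hy hT
  obtain ⟨-, -, -, -, -, -, -, -, -, -, -, h12, h13⟩ := h c₀ he hx hy hT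
  have h14 : LS (fun a => 2 ^ ((prm c₀ (e a) (x a) (y a) (T a)).Z + 1)) :=
    (LS.mul h12 (LS.const 2)).congr fun a => pow_succ _ _
  unfold accF
  refine LS.sum_le (N := fun a => 2 ^ ((prm c₀ (e a) (x a) (y a) (T a)).Z + 1))
    (B := fun a => 2 ^ (prm c₀ (e a) (x a) (y a) (T a)).Z *
      ((prm c₀ (e a) (x a) (y a) (T a)).cz * (prm c₀ (e a) (x a) (y a) (T a)).N))
    (f := fun a p => ∑ r ∈ range (2 ^ (prm c₀ (e a) (x a) (y a) (T a)).Z),
      lt01 0 p * (prm c₀ (e a) (x a) (y a) (T a)).acc p r)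
    ?_ h14 (LS.mul h12 (LS.mul h13 hN)) fun a p _ => ?_
  · have hN' := ls_N (α := α × ℕ) (c₀ := c₀) h (e := fun z => e z.1) (x := fun z => x z.1)
      (y := fun z => y z.1) (T := fun z => T z.1) (by fun_prop) (by fun_prop) (by fun_prop)
      (by fun_prop)
    obtain ⟨-, -, -, -, -, -, -, -, -, -, -, h12', h13'⟩ := h c₀ (α := α × ℕ)
      (e := fun z => e z.1) (x := fun z => x z.1)
      (y := fun z => y z.1) (T := fun z => T z.1) (by fun_prop) (by fun_prop) (by fun_prop)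
      (by fun_prop)
    refine LS.sum_le (α := α × ℕ)
      (N := fun z => 2 ^ (prm c₀ (e z.1) (x z.1) (y z.1) (T z.1)).Z)
      (B := fun z => (prm c₀ (e z.1) (x z.1) (y z.1) (T z.1)).cz *
        (prm c₀ (e z.1) (x z.1) (y z.1) (T z.1)).N)
      (f := fun z r => lt01 0 z.2 * (prm c₀ (e z.1) (x z.1) (y z.1) (T z.1)).acc z.2 r)
      ?_ h12' (LS.mul h13' hN') fun z r _ => ?_
    · refine LS.mul (LS.lt01 (LS.const 0) (by fun_prop)) ?_
      exact ls_acc (α := (α × ℕ) × ℕ) h hW hV (e := fun z => e z.1.1) (x := fun z => x z.1.1)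
        (y := fun z => y z.1.1) (T := fun z => T z.1.1) (p := fun z => z.1.2)
        (r := fun z => z.2)
        (by fun_prop) (by fun_prop) (by fun_prop) (by fun_prop) (by fun_prop) (by fun_prop)
    · calc lt01 0 z.2 * (prm c₀ (e z.1) (x z.1) (y z.1) (T z.1)).acc z.2 r
          ≤ 1 * (prm c₀ (e z.1) (x z.1) (y z.1) (T z.1)).acc z.2 r :=
            Nat.mul_le_mul_right _ (lt01_le _ _)
        _ = (prm c₀ (e z.1) (x z.1) (y z.1) (T z.1)).acc z.2 r := one_mul _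
        _ ≤ _ := acc_le _ _ _
  · refine (sum_le_sum (g := fun _ => (prm c₀ (e a) (x a) (y a) (T a)).cz *
      (prm c₀ (e a) (x a) (y a) (T a)).N) fun r _ => ?_).trans (by simp)
    calc lt01 0 p * (prm c₀ (e a) (x a) (y a) (T a)).acc p r
        ≤ 1 * (prm c₀ (e a) (x a) (y a) (T a)).acc p r :=
          Nat.mul_le_mul_right _ (lt01_le _ _)
      _ = (prm c₀ (e a) (x a) (y a) (T a)).acc p r := one_mul _
      _ ≤ _ := acc_le _ _ _

end

/-- Packet NW-LSK. -/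
theorem lsk (hP : LSP_stmt) (hW : LSW_stmt) (hV : LSV_stmt) : LSK_stmt := by
  intro c₀
  refine ⟨ls_accF hP hW hV (e := fun z : ℕ × ℕ × ℕ × ℕ => z.1) (x := fun z => z.2.1)
    (y := fun z => z.2.2.1) (T := fun z => z.2.2.2) (by fun_prop) (by fun_prop) (by fun_prop)
    (by fun_prop), ?_⟩
  unfold NF
  fun_prop

end Pool.Agent.Helper65.NX.K49
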